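import Pool.Agent.W323.PT.Stm

/-! PT-Red: from local piercing to a weight on pairs of points. -/

set_option autoImplicit false

namespace Pool.Agent.W513.PT

open Pool.Agent.W323.PT

theorem red : S_Cpt → S_Lex → S_Mu → S_Minimax → S_Red := by
  classical
  intro hCpt hLex hMu hMM δ hδ
  obtain ⟨k, hk1, hk⟩ := hMu (δ / 2) (by linarith)
  refine ⟨k, hk1, ?_⟩
  intro F hFne hFconv hFloc
  obtain ⟨F', hF', hF'loc, href⟩ := hCpt k F hk1 hFconv hFloc
  refine ⟨F', fun K hK => (hF' K hK).1, href, ?_⟩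
  obtain ⟨K0, hK0⟩ := hFne
  obtain ⟨K1, hK1, _⟩ := href K0 hK0
  have hcard : 0 < F'.card := Finset.card_pos.mpr ⟨K1, hK1⟩
  let C : Fin F'.card → Set Pt := fun i => (F'.equivFin.symm i : Set Pt)
  have hCmem : ∀ i, C i ∈ F' := fun i => (F'.equivFin.symm i).2
  have hCsurj : ∀ K ∈ F', ∃ i, C i = K := by
    intro K hK
    refine ⟨F'.equivFin ⟨K, hK⟩, ?_⟩
    simp [C]
  have hC : ∀ i, Convex ℝ (C i) ∧ IsCompact (C i) ∧ (C i).Nonempty := fun i => hF' _ (hCmem i)
  have hCloc : ∀ s : Finset (Fin F'.card), s.card ≤ k → ∃ u v : Pt, ∀ i ∈ s, u ∈ C i ∨ v ∈ C i := by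
    intro s hs
    obtain ⟨u, v, huv⟩ := hF'loc (s.image C) (by
      intro K hK
      obtain ⟨i, _, rfl⟩ := Finset.mem_image.mp hK
      exact hCmem i) (le_trans Finset.card_image_le hs)
    exact ⟨u, v, fun i hi => huv (C i) (Finset.mem_image_of_mem C hi)⟩
  have hcex : ∀ i j, ∃ v : Pt, (C i ∩ C j).Nonempty → IsLexMin (C i ∩ C j) v := by
    intro i j
    by_cases hne : (C i ∩ C j).Nonempty
    · obtain ⟨v, hv⟩ := hLex (C i ∩ C j) ((hC i).2.1.inter (hC j).2.1) hne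
      exact ⟨v, fun _ => hv⟩
    · exact ⟨0, fun h => absurd h hne⟩
  choose cand hcand using hcex
  have hmu := hk F'.card C hC hCloc cand hcand
  obtain ⟨w, hw0, hw1, hw⟩ := hMM F'.card
    (Fin F'.card × Fin F'.card × Fin F'.card × Fin F'.card)
    (fun t j => if cand j.1 j.2.1 ∉ C t ∧ cand j.2.2.1 j.2.2.2 ∉ C t then 1 else 0) (δ / 2) hcard (by
      intro μ hμ0 hμ1
      obtain ⟨i, j, a, b, h⟩ := hmu μ hμ0 hμ1
      refine ⟨(i, j, a, b), ?_⟩
      refine lt_of_le_of_lt (le_of_eq ?_) h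
      unfold mass
      refine Finset.sum_congr rfl (fun t _ => ?_)
      by_cases hp : cand i j ∉ C t ∧ cand a b ∉ C t
      · simp only [if_pos hp, mul_one]
      · simp only [if_neg hp, mul_zero])
  refine ⟨Fin F'.card × Fin F'.card × Fin F'.card × Fin F'.card, inferInstance, w,
    fun b j => if b then cand j.2.2.1 j.2.2.2 else cand j.1 j.2.1, hw0, hw1, ?_⟩
  intro K hK
  obtain ⟨t, rfl⟩ := hCsurj K hK
  have h1 := hw t
  have h2 : mass w (fun j : Fin F'.card × Fin F'.card × Fin F'.card × Fin F'.card =>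
      (fun (b : Bool) (j : Fin F'.card × Fin F'.card × Fin F'.card × Fin F'.card) =>
        if b then cand j.2.2.1 j.2.2.2 else cand j.1 j.2.1) false j ∉ C t ∧
      (fun (b : Bool) (j : Fin F'.card × Fin F'.card × Fin F'.card × Fin F'.card) =>
        if b then cand j.2.2.1 j.2.2.2 else cand j.1 j.2.1) true j ∉ C t) =
      ∑ j, w j * (if cand j.1 j.2.1 ∉ C t ∧ cand j.2.2.1 j.2.2.2 ∉ C t then (1 : ℝ) else 0) := by
    unfold mass
    refine Finset.sum_congr rfl (fun j _ => ?_)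
    by_cases hp : cand j.1 j.2.1 ∉ C t ∧ cand j.2.2.1 j.2.2.2 ∉ C t
    · simp [hp.1, hp.2]
    · have hp' : ¬ (cand j.1 j.2.1 ∉ C t ∧ cand j.2.2.1 j.2.2.2 ∉ C t) := hp
      simp only [if_neg hp', mul_zero]
      simp only [if_true, Bool.false_eq_true, if_false, if_neg hp']
  rw [h2]
  linarith

end Pool.Agent.W513.PT
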